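import Pool.Agent.V1178.MT.Defs
import Pool.Agent.Y116.MT.Deg

/-!
# Lifting truncations: definitions
-/

set_option autoImplicit false

open CategoryTheory Limits MonoidalCategory Pretriangulated Triangulated

namespace Pool.Agent.Helper812_LT

open Pool.Agent.Y116.MT

universe v u w

section

variable {C : Type u} [Category.{v} C] [Preadditive C] [HasZeroObject C] [HasShift C ℤ]
  [∀ n : ℤ, (shiftFunctor C n).Additive] [Pretriangulated C] [MonoidalCategory C]
  [SymmetricCategory C] [TensorTriangulated C] {Λ : Type*} {E : Λ → Type w} [∀ l, Field (E l)]
  (R : ∀ l, Realisation C (E l))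

/-- For all `l`, the cohomology `H^i(X)` of the realisation `R l` vanishes for all `i` outside of
the set `s` of degrees. -/
def InDegrees (s : Set ℤ) (X : C) : Prop :=
  ∀ (l : Λ) (i : ℤ), i ∉ s → IsZero ((R l).H.obj (X⟦i⟧))

/-- The object `X` is an extension of an object with cohomology in the degrees in `s'` by an
object with cohomology in the degrees in `s`. -/
def IsExtension (s s' : Set ℤ) (X : C) : Prop :=
  ∃ (A B : C) (f : A ⟶ X) (g : X ⟶ B) (h : B ⟶ A⟦(1 : ℤ)⟧), Triangle.mk f g h ∈ distTriang C ∧
    InDegrees R s A ∧ InDegrees R s' B

/-- The truncations lift: every object is an extension of an object with cohomology in positive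
degrees by an object with cohomology in degrees `≤ 0`. -/
def TruncationsLift : Prop := ∀ X : C, IsExtension R (Set.Iic 0) (Set.Ioi 0) X

/-- Two degrees can be separated: every object with cohomology in two degrees `p < q` only is an
extension of an object with cohomology in degree `q` by an object with cohomology in degree `p`. -/
def TwoDegreesSeparate : Prop :=
  ∀ (X : C) (p q : ℤ), p < q → InDegrees R {p, q} X → IsExtension R {p} {q} X

/-- Fibres can be separated: the fibre `X` of every morphism `f : A ⟶ B` from an object `A` with
cohomology in degree `0` to an object `B` with cohomology in degree `m`, where `m ≥ 0`, is an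
extension of an object with cohomology in degree `m + 1` by an object with cohomology in
degree `0`. -/
def FibresSeparate : Prop :=
  ∀ (X A B : C) (u : X ⟶ A) (f : A ⟶ B) (d : B ⟶ X⟦(1 : ℤ)⟧) (m : ℤ),
    Triangle.mk u f d ∈ distTriang C → 0 ≤ m → InDegrees R {0} A → InDegrees R {m} B →
      IsExtension R {0} {m + 1} X

/-- The objects whose cohomology is in a single degree generate `C` as a thick triangulated
subcategory. -/
def SingleDegreesGenerate : Prop :=
  ObjectProperty.IsClassicalTriangulatedGenerator (fun X : C => ∃ n : ℤ, InDegrees R {n} X)

end

end Pool.Agent.Helper812_LT
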