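import Pool.Agent.Helper812_LT.Sort
import Pool.Agent.Helper812_MT.Coh

/-!
# The criterion of two degrees
-/

set_option autoImplicit false
set_option linter.unusedSectionVars false
set_option linter.unusedSimpArgs false
set_option backward.isDefEq.respectTransparency false
set_option backward.defeqAttrib.useBackward true

open CategoryTheory Limits MonoidalCategory Pretriangulated Triangulated ObjectProperty ZeroObject

namespace Pool.Agent.Helper812_LT

open Pool.Agent.Y116.MT Pool.Agent.V1178.MT Pool.Agent.Helper812_MT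

universe v u w

section

variable {C : Type u} [Category.{v} C] [Preadditive C] [HasZeroObject C] [HasShift C ℤ]
  [∀ n : ℤ, (shiftFunctor C n).Additive] [Pretriangulated C]
  {A : Type*} [Category A] [Abelian A] (H : C ⥤ A) [H.IsHomological]
  {X Y Z : C} {f : X ⟶ Y} {g : Y ⟶ Z} {h : Z ⟶ X⟦(1 : ℤ)⟧}

lemma cone_vanish (hT : Triangle.mk f g h ∈ distTriang C) (i : ℤ)
    (h1 : Epi (H.map (f⟦i⟧'))) (h2 : Mono (H.map (f⟦i + 1⟧'))) : IsZero (H.obj (Z⟦i⟧)) := by
  let _ := Functor.ShiftSequence.tautological H ℤ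
  have h3 := (H.homologySequence_mono_shift_map_mor₁_iff _ hT i (i + 1) rfl).1 h2
  have h4 := (H.homologySequence_epi_shift_map_mor₁_iff _ hT i).1 h1
  exact (H.homologySequence_exact₃ _ hT i (i + 1) rfl).isZero_X₂ h4 h3

end

section

variable {C : Type u} [Category.{v} C] [Preadditive C] [HasZeroObject C] [HasShift C ℤ]
  [∀ n : ℤ, (shiftFunctor C n).Additive] [Pretriangulated C] [MonoidalCategory C]
  [SymmetricCategory C] [TensorTriangulated C] {Λ : Type*} {E : Λ → Type w} [∀ l, Field (E l)]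
  (R : ∀ l, Realisation C (E l)) [IsTriangulated C]

/-- The objects with cohomology in the degree `n` only. -/
def sdeg (n : ℤ) : ObjectProperty C := InDegrees R {n}

instance (n : ℤ) : (sdeg R n).IsClosedUnderIsomorphisms := ⟨fun e h => InDegrees.iso h e⟩

variable {R}

lemma srt_shift (k : ℕ) : ∀ (a m : ℤ) (X : C), srt (sdeg R) a k X →
    srt (sdeg R) (a - m) k (X⟦m⟧) := by
  induction k with
  | zero => intro a m X hX; exact isZero_shift hX m
  | succ k ih =>
    rintro a m X ⟨Y, Z, f, g, h, hT, hY, hZ⟩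
    have h1 := ih (a + 1) m Z hZ
    rw [show a + 1 - m = a - m + 1 by ring] at h1
    exact ⟨_, _, _, _, _, Triangle.shift_distinguished _ hT m, InDegrees.shift hY m (by
      intro i hi
      simp only [Set.mem_singleton_iff] at hi ⊢
      omega), h1⟩

lemma srt_inDegrees (k : ℕ) : ∀ (a : ℤ) (X : C), srt (sdeg R) a k X →
    InDegrees R (Set.Ico a (a + k)) X := by
  induction k with
  | zero => intro a X hX; exact inDegrees_of_isZero hX _
  | succ k ih =>
    rintro a X ⟨Y, Z, f, g, h, hT, hY, hZ⟩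
    refine InDegrees.ext hT (InDegrees.mono hY ?_) (InDegrees.mono (ih (a + 1) Z hZ) ?_)
    · intro i hi
      simp only [Set.mem_singleton_iff, Set.mem_Ico] at hi ⊢
      push_cast
      omega
    · intro i hi
      simp only [Set.mem_Ico] at hi ⊢
      push_cast
      omega

lemma sdeg_zero (a : ℤ) (X : C) (hX : IsZero X) : sdeg R a X := inDegrees_of_isZero hX _

lemma sdeg_ext (a : ℤ) : extensionProduct (sdeg R a) (sdeg R a) ≤ sdeg R a := by
  rintro X ⟨Y, Z, f, g, h, hT, hY, hZ⟩
  exact InDegrees.ext hT hY hZ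

/-- If two degrees can be separated, the fibres can be separated. -/
lemma fibres_of_two (h : TwoDegreesSeparate R) : FibresSeparate R := by
  intro X A B u f d m hT hm hA hB
  refine h X 0 (m + 1) (by omega) ?_
  refine InDegrees.ext (inv_rot_of_distTriang _ hT) (InDegrees.shift hB (-1) fun i hi => ?_)
    (InDegrees.mono hA (by simp))
  simp only [Set.mem_singleton_iff, Set.mem_insert_iff] at hi ⊢
  omega

/-- If the fibres can be separated, the single degrees can be sorted. -/
lemma sdeg_swap (h : FibresSeparate R) (p q : ℤ) (hpq : p < q) :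
    extensionProduct (sdeg R q) (sdeg R p) ≤ extensionProduct (sdeg R p) (sdeg R q) := by
  rintro X ⟨Y, Z, f, g, k, hT, hY, hZ⟩
  have hT' := Triangle.shift_distinguished _ (rot_of_distTriang _ hT) p
  have h1 : IsExtension R {0} {q - 1 - p + 1} (X⟦p⟧) := by
    refine h _ _ _ _ _ _ (q - 1 - p) hT' (by omega) (InDegrees.shift hZ p fun i hi => ?_)
      (InDegrees.shift (InDegrees.shift hY 1 (s' := {q - 1}) fun i hi => ?_) p fun i hi => ?_)
    · simp only [Set.mem_singleton_iff] at hi ⊢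
      omega
    · simp only [Set.mem_singleton_iff] at hi ⊢
      omega
    · simp only [Set.mem_singleton_iff] at hi ⊢
      omega
  have h2 : IsExtension R {p} {q} ((X⟦p⟧)⟦-p⟧) := h1.shift (-p)
    (fun i hi => by
      simp only [Set.mem_singleton_iff] at hi ⊢
      omega)
    (fun i hi => by
      simp only [Set.mem_singleton_iff] at hi ⊢
      omega)
  exact h2.iso ((shiftEquiv C p).unitIso.symm.app X)

variable (h2 : FibresSeparate R)

include h2

lemma sorted_iso : (sorted (sdeg R)).IsClosedUnderIsomorphisms :=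
  ⟨fun e ⟨a, k, h⟩ => ⟨a, k, (srt (sdeg R) a k).prop_of_iso e h⟩⟩

/-- A sorted object has truncations which are sorted. -/
lemma sorted_trunc {X : C} (hX : sorted (sdeg R) X) :
    ∃ (A B : C) (f : A ⟶ X) (g : X ⟶ B) (h : B ⟶ A⟦(1 : ℤ)⟧), Triangle.mk f g h ∈ distTriang C ∧
      (sorted (sdeg R) A ∧ InDegrees R (Set.Iic 0) A) ∧
      (sorted (sdeg R) B ∧ InDegrees R (Set.Ioi 0) B) := by
  obtain ⟨a, k, hX⟩ := hX
  have h3 := srt_mono (sdeg R) sdeg_zero sdeg_ext (sdeg_swap h2) a (min a 0) k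
    (k + a.natAbs + 1) (min_le_left _ _) (by omega) X hX
  obtain ⟨j, hj⟩ := Int.eq_ofNat_of_zero_le (show 0 ≤ 1 - min a 0 by omega)
  obtain ⟨m, hm⟩ := Int.eq_ofNat_of_zero_le
    (show 0 ≤ ((k + a.natAbs + 1 : ℕ) : ℤ) - j by omega)
  obtain ⟨A, B, f, g, h, hT, hA, hB⟩ := srt_split (sdeg R) j (min a 0) 1
    (k + a.natAbs + 1) m (by omega) (by omega) X h3
  refine ⟨A, B, f, g, h, hT, ⟨⟨_, _, hA⟩, ?_⟩, ⟨⟨_, _, hB⟩, ?_⟩⟩
  · refine InDegrees.mono (srt_inDegrees _ _ _ hA) fun i hi => ?_
    simp only [Set.mem_Ico, Set.mem_Iic] at hi ⊢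
    omega
  · refine InDegrees.mono (srt_inDegrees _ _ _ hB) fun i hi => ?_
    simp only [Set.mem_Ico, Set.mem_Ioi] at hi ⊢
    omega

/-- Orthogonality of sorted objects. -/
lemma sorted_orthogonal {l : Λ} (hc : Conservative (R l)) {A B : C} (f : A ⟶ B)
    (hA : sorted (sdeg R) A) (hB : sorted (sdeg R) B) (hA' : InDegrees R (Set.Iic 0) A)
    (hB' : InDegrees R (Set.Ioi 0) B) : f = 0 := by
  obtain ⟨F, u, d, hF⟩ := distinguished_cocone_triangle₁ f
  refine orthogonal hc hF hA' hB' ?_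
  have h3 : sorted (sdeg R) F := by
    obtain ⟨b, m, hB⟩ := hB
    exact sorted_ext (sdeg R) sdeg_zero sdeg_ext (sdeg_swap h2) F
      ⟨_, _, _, _, _, inv_rot_of_distTriang _ hF, ⟨_, _, srt_shift m b (-1) B hB⟩, hA⟩
  obtain ⟨A₁, B₁, f₁, g₁, h₁, hT, hA₁, hB₁⟩ := sorted_trunc h2 h3
  exact ⟨A₁, B₁, f₁, g₁, h₁, hT, hA₁.2, hB₁.2⟩

/-- The truncations of a direct summand of a sorted object. -/
theorem retract_trunc [IsIdempotentComplete C] {l : Λ} (hc : Conservative (R l)) {X X' : C}
    (i : X ⟶ X') (r : X' ⟶ X) (hir : i ≫ r = 𝟙 _) (hX' : sorted (sdeg R) X') :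
    IsExtension R (Set.Iic 0) (Set.Ioi 0) X := by
  obtain ⟨A', B', α, g, h, hT, ⟨hA1, hA2⟩, ⟨hB1, hB2⟩⟩ := sorted_trunc h2 hX'
  obtain ⟨eA, heA⟩ := ce2 hT (α ≫ r ≫ i) (by
    rw [Category.assoc, Category.assoc]
    exact sorted_orthogonal h2 hc _ hA1 hB1 hA2 hB2)
  have hinj : ∀ δ : A' ⟶ A', δ ≫ α = 0 → δ = 0 := by
    intro δ hδ
    obtain ⟨m, hm⟩ := ce1 hT (δ⟦(1 : ℤ)⟧') (by rw [← Functor.map_comp, hδ, Functor.map_zero])
    have h3 : m = 0 := by
      obtain ⟨a, k, hA⟩ := hA1
      refine sorted_orthogonal h2 hc m ⟨_, _, srt_shift k a 1 A' hA⟩ hB1 ?_ hB2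
      exact hA2.shift 1 fun i hi => by
        simp only [Set.mem_Iic] at hi ⊢
        omega
    rw [h3, zero_comp] at hm
    exact (shiftFunctor C (1 : ℤ)).map_injective (by rw [hm, Functor.map_zero])
  have hidem : eA ≫ eA = eA := by
    rw [← sub_eq_zero]
    apply hinj
    rw [Preadditive.sub_comp, Category.assoc, ← heA, ← Category.assoc, ← heA]
    simp only [Category.assoc, reassoc_of% hir, sub_self]
  obtain ⟨A, s, u, hsu, hus⟩ := IsIdempotentComplete.idempotents_split A' eA hidem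
  obtain ⟨B, g', h', hT'⟩ := distinguished_cocone_triangle (s ≫ α ≫ r)
  refine ⟨A, B, _, g', h', hT', InDegrees.retract s u hsu hA2, fun l' n hn => ?_⟩
  have key : ∀ m : ℤ, m ≤ 0 → IsIso ((R l').H.map ((s ≫ α ≫ r)⟦m⟧')) := by
    intro m hm
    let F : C ⥤ ModuleCat.{w} (E l') := shiftFunctor C m ⋙ (R l').H
    have hα : IsIso (F.map α) := by
      have h3 := hmono1 (R l').H hT m (hB2 l' _ (by simp only [Set.mem_Ioi]; omega))
      have h4 := hepi1 (R l').H hT m (hB2 l' _ (by simp only [Set.mem_Ioi]; omega))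
      exact isIso_of_mono_of_epi (C := ModuleCat.{w} (E l')) ((R l').H.map (α⟦m⟧'))
    have h5 : F.map α ≫ F.map r ≫ F.map i = F.map eA ≫ F.map α := by
      rw [← Functor.map_comp, ← Functor.map_comp, ← Functor.map_comp, heA]
    change IsIso (F.map (s ≫ α ≫ r))
    refine ⟨F.map i ≫ inv (F.map α) ≫ F.map u, ?_, ?_⟩
    · rw [Functor.map_comp, Functor.map_comp, Category.assoc, Category.assoc,
        reassoc_of% h5, IsIso.hom_inv_id_assoc, ← Functor.map_comp, ← Functor.map_comp, ← hus]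
      simp only [Category.assoc, hsu, Category.comp_id, CategoryTheory.Functor.map_id]
    · have h6 : F.map u ≫ F.map s = F.map eA := by rw [← Functor.map_comp, hus]
      rw [Functor.map_comp, Functor.map_comp]
      simp only [Category.assoc]
      rw [reassoc_of% h6, ← reassoc_of% h5, IsIso.inv_hom_id_assoc, ← Functor.map_comp,
        ← Functor.map_comp, ← Functor.map_comp]
      simp only [Category.assoc, hir, reassoc_of% hir, CategoryTheory.Functor.map_id]
  have hn' : n ≤ 0 := by simpa using hn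
  have k1 := key n hn'
  refine cone_vanish (R l').H hT' n inferInstance ?_
  by_cases hn1 : n + 1 ≤ 0
  · have k2 := key (n + 1) hn1
    infer_instance
  · have h6 := (InDegrees.retract s u hsu hA2) l' (n + 1) (by
      simp only [Set.mem_Iic]
      omega)
    constructor
    intro W a b _
    exact h6.eq_of_tgt _ _

/-- If two degrees can be separated and the objects in a single degree generate, the truncations
lift. -/
theorem lift_of_separate [IsIdempotentComplete C] {l : Λ} (hc : Conservative (R l))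
    (h3 : SingleDegreesGenerate R) : TruncationsLift R := by
  have i0 := sorted_iso h2
  have i1 : (sorted (sdeg R)).ContainsZero := ⟨0, isZero_zero C, 0, 0, isZero_zero C⟩
  have i2 : (sorted (sdeg R)).IsStableUnderShift ℤ :=
    ⟨fun m => ⟨fun X ⟨a, k, hX⟩ => ⟨_, _, srt_shift k a m X hX⟩⟩⟩
  have i3 : (sorted (sdeg R)).retractClosure.IsTriangulatedClosed₂ := by
    apply IsTriangulatedClosed₂.mk'
    intro T hT h4 h5
    have h6 := extensionProduct_retractClosure_retractClosure_le (sorted (sdeg R))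
      (sorted (sdeg R)) T.obj₂ ⟨_, _, _, _, _, hT, h4, h5⟩
    exact monotone_retractClosure (sorted_ext (sdeg R) sdeg_zero sdeg_ext (sdeg_swap h2)) _ h6
  have i4 : (sorted (sdeg R)).retractClosure.IsStableUnderShift ℤ := by
    refine ⟨fun m => ⟨fun X hX => ?_⟩⟩
    obtain ⟨Y, hY, ⟨e⟩⟩ := hX
    exact ⟨Y⟦m⟧, i2.isStableUnderShiftBy m |>.le_shift _ hY, ⟨e.map (shiftFunctor C m)⟩⟩
  have i5 : (sorted (sdeg R)).retractClosure.ContainsZero :=
    ⟨0, isZero_zero C, le_retractClosure _ _ ⟨0, 0, isZero_zero C⟩⟩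
  have i6 : (sorted (sdeg R)).retractClosure.IsTriangulated := {}
  have h4 : ObjectProperty.triangEnvelope (fun X : C => ∃ n : ℤ, InDegrees R {n} X) ≤
      (sorted (sdeg R)).retractClosure := by
    rw [triangEnvelope_le_iff]
    rintro X ⟨n, hX⟩
    refine le_retractClosure _ _ ⟨n, 1, ?_⟩
    exact ⟨X, _, 𝟙 X, 0, 0, contractible_distinguished X, hX, isZero_zero C⟩
  rw [(isClassicalTriangulatedGenerator_iff _).1 h3] at h4
  intro X
  obtain ⟨X', hX', ⟨e⟩⟩ := h4 X trivial
  exact retract_trunc h2 hc e.i e.r e.retract hX'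

end

end Pool.Agent.Helper812_LT
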