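import Pool.Agent.Helper812_LT.Crit

/-!
# The criterion of two degrees: the converse
-/

set_option autoImplicit false
set_option linter.unusedSectionVars false
set_option linter.unusedSimpArgs false
set_option backward.isDefEq.respectTransparency false
set_option backward.defeqAttrib.useBackward true

open CategoryTheory Limits MonoidalCategory Pretriangulated Triangulated ObjectProperty ZeroObject

namespace Pool.Agent.Helper812_LT

open Pool.Agent.Y116.MT Pool.Agent.V1178.MT Pool.Agent.Helper812_MT

universe v u w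

section

variable {C : Type u} [Category.{v} C] [Preadditive C] [HasZeroObject C] [HasShift C ℤ]
  [∀ n : ℤ, (shiftFunctor C n).Additive] [Pretriangulated C] [MonoidalCategory C]
  [SymmetricCategory C] [TensorTriangulated C] {Λ : Type*} {E : Λ → Type w} [∀ l, Field (E l)]
  {R : ∀ l, Realisation C (E l)} [IsTriangulated C] [MonoidalPreadditive C]
  [RightRigidCategory C] {t : TStructure C}

theorem lift_of_motivic (h : IsMotivic t R) : TruncationsLift R := by
  intro X
  obtain ⟨A, B, hA, hB, f, g, k, hT⟩ := t.exists_triangle X 0 1 rfl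
  have hA1 : t.IsLE A 0 := ⟨hA⟩
  have hB1 : t.IsGE B 1 := ⟨hB⟩
  refine ⟨A, B, f, g, k, hT, fun l i hi => ?_, fun l i hi => ?_⟩
  · exact TExact.isLE ⟨h.exact_le l, h.exact_ge l⟩ hA1 i (by simpa using hi)
  · exact TExact.isGE ⟨h.exact_le l, h.exact_ge l⟩ hB1 i (by
      simp only [Set.mem_Ioi] at hi
      omega)

theorem separate_of_motivic (h : IsMotivic t R) : TwoDegreesSeparate R := by
  intro X p q hpq hX
  obtain ⟨A, B, hA, hB, f, g, k, hT⟩ := t.exists_triangle X p (p + 1) rfl
  have hA1 : t.IsLE A p := ⟨hA⟩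
  have hB1 : t.IsGE B (p + 1) := ⟨hB⟩
  have hA2 : ∀ (l : Λ) (i : ℤ), p < i → IsZero ((R l).H.obj (A⟦i⟧)) :=
    fun l i hi => TExact.isLE ⟨h.exact_le l, h.exact_ge l⟩ hA1 i hi
  have hB2 : ∀ (l : Λ) (i : ℤ), i < p + 1 → IsZero ((R l).H.obj (B⟦i⟧)) :=
    fun l i hi => TExact.isGE ⟨h.exact_le l, h.exact_ge l⟩ hB1 i hi
  refine ⟨A, B, f, g, k, hT, fun l i hi => ?_, fun l i hi => ?_⟩
  · simp only [Set.mem_singleton_iff] at hi
    by_cases h1 : p < i
    · exact hA2 l i h1
    · exact hz1 (R l).H hT i (hX l i (by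
        simp only [Set.mem_insert_iff, Set.mem_singleton_iff]
        omega)) (hB2 l _ (by omega))
  · simp only [Set.mem_singleton_iff] at hi
    by_cases h1 : i < p + 1
    · exact hB2 l i h1
    · exact hz3 (R l).H hT i (hX l i (by
        simp only [Set.mem_insert_iff, Set.mem_singleton_iff]
        omega)) (hA2 l _ (by omega))

theorem generate_of_motivic {l : Λ} (h : IsMotivic t R) (hc : Conservative (R l)) :
    SingleDegreesGenerate R := by
  have he : ∀ l, TExact t (R l) := fun l => ⟨h.exact_le l, h.exact_ge l⟩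
  rw [SingleDegreesGenerate, isClassicalTriangulatedGenerator_iff, eq_top_iff]
  rintro X -
  obtain ⟨N, hN⟩ := (R l).bounded X
  have h1 : t.IsLE X N := isLE_of hc (he l) fun i hi => hN i (by omega)
  have h2 : t.IsGE X (-N) := isGE_of hc (he l) fun i hi => hN i (by omega)
  have key : ∀ m : ℤ, -(N : ℤ) ≤ m →
      (triangEnvelope (fun X : C => ∃ n : ℤ, InDegrees R {n} X)) ((t.truncLT m).obj X) := by
    intro m hm
    induction m, hm using Int.leInduction with
    | base => exact le_triangEnvelope _ _ ⟨0, inDegrees_of_isZero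
        (t.isZero_truncLT_obj_of_isGE (-(N : ℤ)) X) _⟩
    | succ m hm ih =>
      obtain ⟨f, g, k, hT⟩ := coh_tri t m X
      refine ext_of_isTriangulatedClosed₂ _ _ hT ih (le_triangEnvelope _ _ ⟨m, fun l i hi => ?_⟩)
      exact Helper812_MT.TExact.deg' (he l) (coh_isLE t m X) (coh_isGE t m X) i (by simpa using hi)
  have h3 := (t.isLE_iff_isIso_truncLTι_app N (N + 1) rfl X).1 h1
  exact (triangEnvelope (fun X : C => ∃ n : ℤ, InDegrees R {n} X)).prop_of_iso
    (asIso ((t.truncLTι (N + 1)).app X)) (key _ (by omega))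

end

end Pool.Agent.Helper812_LT
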