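import Pool.Agent.Helper812_LT.Defs
import Pool.Agent.V1178.MT.Main

/-!
# The t-structure defined by a conservative realisation
-/

set_option autoImplicit false
set_option linter.unusedSectionVars false
set_option linter.unusedSimpArgs false
set_option backward.isDefEq.respectTransparency false
set_option backward.defeqAttrib.useBackward true

open CategoryTheory Limits MonoidalCategory TensorProduct Pretriangulated Triangulated

namespace Pool.Agent.Helper812_LT

open Pool.Agent.Y116.MT Pool.Agent.V1178.MT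

universe v u w

section

variable {C : Type u} [Category.{v} C] [Preadditive C] [HasZeroObject C] [HasShift C ℤ]
  [∀ n : ℤ, (shiftFunctor C n).Additive] [Pretriangulated C] [MonoidalCategory C]
  [SymmetricCategory C] [TensorTriangulated C] {Λ : Type*} {E : Λ → Type w} [∀ l, Field (E l)]
  {R : ∀ l, Realisation C (E l)}

lemma InDegrees.mono {s s' : Set ℤ} {X : C} (h : InDegrees R s X) (hs : s ⊆ s') :
    InDegrees R s' X := fun l i hi => h l i fun hi' => hi (hs hi')

lemma InDegrees.iso {s : Set ℤ} {X Y : C} (h : InDegrees R s X) (e : X ≅ Y) :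
    InDegrees R s Y := fun l i hi =>
  (h l i hi).of_iso ((R l).H.mapIso ((shiftFunctor C i).mapIso e.symm))

lemma InDegrees.shift {s s' : Set ℤ} {X : C} (h : InDegrees R s X) (m : ℤ)
    (hs : ∀ i, m + i ∈ s → i ∈ s') : InDegrees R s' (X⟦m⟧) := fun l i hi =>
  (h l (m + i) fun hi' => hi (hs i hi')).of_iso
    ((R l).H.mapIso ((shiftFunctorAdd C m i).app X).symm)

lemma InDegrees.ext {s : Set ℤ} {X Y Z : C} {f : X ⟶ Y} {g : Y ⟶ Z} {h : Z ⟶ X⟦(1 : ℤ)⟧}
    (hT : Triangle.mk f g h ∈ distTriang C) (hX : InDegrees R s X) (hZ : InDegrees R s Z) :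
    InDegrees R s Y := fun l i hi => hz2 (R l).H hT i (hX l i hi) (hZ l i hi)

lemma InDegrees.retract {s : Set ℤ} {X Y : C} (i : Y ⟶ X) (r : X ⟶ Y) (hir : i ≫ r = 𝟙 _)
    (h : InDegrees R s X) : InDegrees R s Y := fun l n hn => by
  rw [IsZero.iff_id_eq_zero]
  have h1 : 𝟙 ((R l).H.obj (Y⟦n⟧)) = (R l).H.map (i⟦n⟧') ≫ (R l).H.map (r⟦n⟧') := by
    rw [← Functor.map_comp, ← Functor.map_comp, hir, CategoryTheory.Functor.map_id,
      CategoryTheory.Functor.map_id]
  rw [h1, (h l n hn).eq_of_tgt ((R l).H.map (i⟦n⟧')) 0, zero_comp]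

lemma inDegrees_of_isZero {X : C} (h : IsZero X) (s : Set ℤ) : InDegrees R s X :=
  fun l i _ => (R l).H.map_isZero (isZero_shift h i)

lemma IsExtension.shift {s₁ s₂ s₁' s₂' : Set ℤ} {X : C} (h : IsExtension R s₁ s₂ X) (m : ℤ)
    (h1 : ∀ i, m + i ∈ s₁ → i ∈ s₁') (h2 : ∀ i, m + i ∈ s₂ → i ∈ s₂') :
    IsExtension R s₁' s₂' (X⟦m⟧) := by
  obtain ⟨A, B, f, g, k, hT, hA, hB⟩ := h
  exact ⟨_, _, _, _, _, Triangle.shift_distinguished _ hT m, hA.shift m h1, hB.shift m h2⟩

lemma IsExtension.iso {s₁ s₂ : Set ℤ} {X Y : C} (h : IsExtension R s₁ s₂ X) (e : X ≅ Y) :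
    IsExtension R s₁ s₂ Y := by
  obtain ⟨A, B, f, g, k, hT, hA, hB⟩ := h
  refine ⟨A, B, f ≫ e.hom, e.inv ≫ g, k, ?_, hA, hB⟩
  exact isomorphic_distinguished _ hT _ (Triangle.isoMk _ _ (Iso.refl _) e.symm (Iso.refl _)
    (by simp) (by simp) (by simp))

/-- The orthogonality is automatic: if `F` is the fibre of a morphism `f` from `A` in degrees
`≤ 0` to `B` in degrees `> 0`, and if `F` can be truncated, then `f = 0`. -/
theorem orthogonal [IsTriangulated C] {l : Λ} (hc : Conservative (R l)) {A B F : C} {u : F ⟶ A}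
    {f : A ⟶ B} {d : B ⟶ F⟦(1 : ℤ)⟧} (hF : Triangle.mk u f d ∈ distTriang C)
    (hA : InDegrees R (Set.Iic 0) A) (hB : InDegrees R (Set.Ioi 0) B)
    (h : IsExtension R (Set.Iic 0) (Set.Ioi 0) F) : f = 0 := by
  obtain ⟨A', B', v, q, k, hT, hA', hB'⟩ := h
  obtain ⟨W, g, h', hW⟩ := distinguished_cocone_triangle (v ≫ u)
  have O := someOctahedron rfl hT hF hW
  have hz : IsZero W := by
    apply hc
    intro i
    by_cases hi : i ≤ 0
    · exact hz2 (R l).H O.mem i (hB' l i (by simpa using hi)) (hB l i (by simpa using hi))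
    · exact hz3 (R l).H hW i (hA l i (by simpa using hi)) (hA' l (i + 1) (by
        simp only [Set.mem_Iic]
        omega))
  have hiso := isIso1_of_isZero3 hW hz
  rw [← cancel_epi (v ≫ u), Category.assoc, comp12 hF, comp_zero, comp_zero]

/-- The t-structure defined by a conservative realisation, if the truncations lift. -/
noncomputable def tStr [IsTriangulated C] {l : Λ} (hc : Conservative (R l))
    (h : TruncationsLift R) : TStructure C where
  le n := InDegrees R (Set.Iic n)
  ge n := InDegrees R (Set.Ici n)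
  le_isClosedUnderIsomorphisms n := ⟨fun e h => h.iso e⟩
  ge_isClosedUnderIsomorphisms n := ⟨fun e h => h.iso e⟩
  le_shift n a n' hn X hX := hX.shift a fun i hi => by
    simp only [Set.mem_Iic] at hi ⊢
    omega
  ge_shift n a n' hn X hX := hX.shift a fun i hi => by
    simp only [Set.mem_Ici] at hi ⊢
    omega
  zero' A B f hA hB := by
    obtain ⟨F, u, d, hF⟩ := distinguished_cocone_triangle₁ f
    exact orthogonal hc hF hA (hB.mono fun i hi => by
      simp only [Set.mem_Ici, Set.mem_Ioi] at hi ⊢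
      omega) (h F)
  le_zero_le X hX := hX.mono fun i hi => by
    simp only [Set.mem_Iic] at hi ⊢
    omega
  ge_one_le X hX := hX.mono fun i hi => by
    simp only [Set.mem_Ici] at hi ⊢
    omega
  exists_triangle_zero_one X := by
    obtain ⟨A, B, f, g, k, hT, hA, hB⟩ := h X
    exact ⟨A, B, hA, hB.mono fun i hi => by
      simp only [Set.mem_Ici, Set.mem_Ioi] at hi ⊢
      omega, f, g, k, hT⟩

end

section

variable {C : Type u} [Category.{v} C] [Preadditive C] [HasZeroObject C] [HasShift C ℤ]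
  [∀ n : ℤ, (shiftFunctor C n).Additive] [Pretriangulated C] [MonoidalCategory C]
  [SymmetricCategory C] [TensorTriangulated C] {Λ : Type*} {E : Λ → Type w} [∀ l, Field (E l)]
  {R : ∀ l, Realisation C (E l)} [IsTriangulated C] [MonoidalPreadditive C]
  [RightRigidCategory C]

theorem tStr_motivic {l : Λ} (hc : Conservative (R l))
    (h : TruncationsLift R) : IsMotivic (tStr hc h) R := by
  refine ⟨fun X hX => hc X fun i => (hX (i - 1)) l i (by simp),
    fun X hX => hc X fun i => (hX (i + 1)) l i (by simp), fun X Y hX hY => ?_,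
    fun X Y hX hY => ?_, fun l X hX i hi => hX l i (by simpa using hi),
    fun l X hX i hi => hX l i (by simpa using hi)⟩
  · intro l i hi
    exact tensor_vanish_pos (fun j hj => hX l j (by simpa using hj))
      (fun j hj => hY l j (by simpa using hj)) (by simpa using hi)
  · intro l i hi
    exact tensor_vanish_neg (fun j hj => hX l j (by simpa using hj))
      (fun j hj => hY l j (by simpa using hj)) (by simpa using hi)

theorem conservative_of_motivic {t : TStructure C}
    (hid : ∀ e : 𝟙_ C ⟶ 𝟙_ C, e ≫ e = e → e = 0 ∨ e = 𝟙 _) (h : IsMotivic t R) (l : Λ) :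
    Conservative (R l) := by
  have ht : TensorCompat t := ⟨h.tensor_le, h.tensor_ge⟩
  have hu : Hrt t (𝟙_ C) := unit_hrt ht h.nondeg_le h.nondeg_ge
  exact fun X hX => conservative ht ⟨h.exact_le l, h.exact_ge l⟩ hu hid h.nondeg_le
      h.nondeg_ge hX

lemma isLE_iff_inDegrees {t : TStructure C} (h : IsMotivic t R) {l : Λ}
    (hc : Conservative (R l)) (X : C) (n : ℤ) : t.IsLE X n ↔ InDegrees R (Set.Iic n) X := by
  constructor
  · intro hX l i hi
    exact TExact.isLE ⟨h.exact_le l, h.exact_ge l⟩ hX i (by simpa using hi)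
  · intro hX
    exact isLE_of hc ⟨h.exact_le l, h.exact_ge l⟩ fun i hi => hX l i (by simpa using hi)

lemma isGE_iff_inDegrees {t : TStructure C} (h : IsMotivic t R) {l : Λ}
    (hc : Conservative (R l)) (X : C) (n : ℤ) : t.IsGE X n ↔ InDegrees R (Set.Ici n) X := by
  constructor
  · intro hX l i hi
    exact TExact.isGE ⟨h.exact_le l, h.exact_ge l⟩ hX i (by simpa using hi)
  · intro hX
    exact isGE_of hc ⟨h.exact_le l, h.exact_ge l⟩ fun i hi => hX l i (by simpa using hi)

end

end Pool.Agent.Helper812_LT
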