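import Pool.Agent.Helper812_LT.Build

/-!
# Sorting iterated extensions
-/

set_option autoImplicit false
set_option linter.unusedSectionVars false
set_option linter.unusedSimpArgs false
set_option backward.isDefEq.respectTransparency false
set_option backward.defeqAttrib.useBackward true

open CategoryTheory Limits Pretriangulated Triangulated ObjectProperty ZeroObject

namespace Pool.Agent.Helper812_LT

universe v u w

section

variable {C : Type u} [Category.{v} C] [Preadditive C] [HasZeroObject C] [HasShift C ℤ]
  [∀ n : ℤ, (shiftFunctor C n).Additive] [Pretriangulated C]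

/-- The zero objects. -/
def zro (C : Type u) [Category.{v} C] : ObjectProperty C := fun X => IsZero X

instance : (zro C).ContainsZero := ⟨0, isZero_zero C, isZero_zero C⟩

/-- The iterated extensions of objects in the classes `S a, S (a + 1), …, S (a + k - 1)`. -/
def srt (S : ℤ → ObjectProperty C) : ℤ → ℕ → ObjectProperty C
  | _, 0 => zro C
  | a, k + 1 => extensionProduct (S a) (srt S (a + 1) k)

lemma ext_zro_right {P : ObjectProperty C} [P.IsClosedUnderIsomorphisms] :
    extensionProduct P (zro C) ≤ P := by
  rintro X ⟨Y, Z, f, g, h, hT, hP, hZ⟩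
  have : IsIso f := (Triangle.isZero₃_iff_isIso₁ _ hT).1 hZ
  exact P.prop_of_iso (asIso f) hP

lemma ext_zro_left {P : ObjectProperty C} [P.IsClosedUnderIsomorphisms] :
    extensionProduct (zro C) P ≤ P := by
  rintro X ⟨Y, Z, f, g, h, hT, hY, hP⟩
  have : IsIso g := (Triangle.isZero₁_iff_isIso₂ _ hT).1 hY
  exact P.prop_of_iso (asIso g).symm hP

instance srt_iso (S : ℤ → ObjectProperty C) [∀ a, (S a).IsClosedUnderIsomorphisms] (a : ℤ)
    (k : ℕ) : (srt S a k).IsClosedUnderIsomorphisms := by
  cases k with
  | zero => exact ⟨fun e h => h.of_iso e.symm⟩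
  | succ k => exact inferInstanceAs (extensionProduct (S a) (srt S (a + 1) k)).IsClosedUnderIsomorphisms

variable [IsTriangulated C] (S : ℤ → ObjectProperty C) [∀ a, (S a).IsClosedUnderIsomorphisms]
  (hz : ∀ (a : ℤ) (X : C), IsZero X → S a X)
  (hs : ∀ a, extensionProduct (S a) (S a) ≤ S a)
  (hc : ∀ p q : ℤ, p < q → extensionProduct (S q) (S p) ≤ extensionProduct (S p) (S q))

include hs hc

lemma srt_absorb (k : ℕ) : ∀ (a q : ℤ), a ≤ q → q < a + k →
    extensionProduct (S q) (srt S a k) ≤ srt S a k := by
  induction k with
  | zero =>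
    intro a q h1 h2
    simp at h2
    omega
  | succ k ih =>
    intro a q h1 h2
    change extensionProduct (S q) (extensionProduct (S a) (srt S (a + 1) k)) ≤
      extensionProduct (S a) (srt S (a + 1) k)
    rw [← extensionProduct_assoc]
    by_cases h : q = a
    · subst h
      exact monotone_extensionProduct_left _ (hs q)
    · refine (monotone_extensionProduct_left _ (hc a q (by omega))).trans ?_
      rw [extensionProduct_assoc]
      exact monotone_extensionProduct_right _ (ih (a + 1) q (by omega) (by push_cast at h2; omega))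

lemma srt_ext (k : ℕ) : ∀ (a b : ℤ) (m : ℕ), b ≤ a → a + k ≤ b + m →
    extensionProduct (srt S a k) (srt S b m) ≤ srt S b m := by
  induction k with
  | zero =>
    intro a b m _ _
    exact ext_zro_left
  | succ k ih =>
    intro a b m h1 h2
    change extensionProduct (extensionProduct (S a) (srt S (a + 1) k)) (srt S b m) ≤ _
    rw [extensionProduct_assoc]
    refine (monotone_extensionProduct_right _ (ih (a + 1) b m (by omega)
      (by push_cast at h2; omega))).trans ?_
    exact srt_absorb S hs hc m b a h1 (by push_cast at h2; omega)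

omit hs hc in
include hz in
lemma srt_zero (k : ℕ) : ∀ (a : ℤ) (X : C), IsZero X → srt S a k X := by
  induction k with
  | zero => intro a X hX; exact hX
  | succ k ih =>
    intro a X hX
    exact ⟨X, X, 0, 0, 0, isomorphic_distinguished _ (contractible_distinguished X) _
      (Triangle.isoMk _ _ (Iso.refl _) (Iso.refl _) (hX.iso (isZero_zero C))
        (hX.eq_of_src _ _) (hX.eq_of_src _ _) (hX.eq_of_src _ _)), hz a X hX, ih (a + 1) X hX⟩

include hz in
lemma srt_mono (a b : ℤ) (k m : ℕ) (h1 : b ≤ a) (h2 : a + k ≤ b + m) :
    srt S a k ≤ srt S b m := by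
  intro X hX
  refine srt_ext S hs hc k a b m h1 h2 X ?_
  exact ⟨X, _, 𝟙 X, 0, 0, contractible_distinguished X, hX, srt_zero S hz m b _ (isZero_zero C)⟩

omit hs hc in
/-- A sorted extension can be cut in two. -/
lemma srt_split (j : ℕ) : ∀ (a b : ℤ) (k m : ℕ), a + j = b → j + m = k →
    srt S a k ≤ extensionProduct (srt S a j) (srt S b m) := by
  induction j with
  | zero =>
    intro a b k m h1 h2 X hX
    obtain rfl : a = b := by simpa using h1
    obtain rfl : m = k := by simpa using h2
    exact le_extensionProduct_right (P := zro C) X (by exact hX)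
  | succ j ih =>
    intro a b k m h1 h2
    obtain ⟨k, rfl⟩ : ∃ k', k = k' + 1 := ⟨k - 1, by omega⟩
    change extensionProduct (S a) (srt S (a + 1) k) ≤
      extensionProduct (extensionProduct (S a) (srt S (a + 1) j)) (srt S b m)
    rw [extensionProduct_assoc]
    exact monotone_extensionProduct_right _ (ih (a + 1) b k m (by push_cast at h1; omega)
      (by omega))

/-- The sorted iterated extensions. -/
def sorted (S : ℤ → ObjectProperty C) : ObjectProperty C := fun X => ∃ a k, srt S a k X

include hz in
lemma sorted_ext : extensionProduct (sorted S) (sorted S) ≤ sorted S := by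
  rintro X ⟨Y, Z, f, g, h, hT, ⟨a, k, hY⟩, ⟨b, m, hZ⟩⟩
  have key : srt S (min a b) (k + m + (a - b).natAbs) X := by
    refine srt_ext S hs hc (k + m + (a - b).natAbs) (min a b) (min a b) _ le_rfl le_rfl X ?_
    refine ⟨Y, Z, f, g, h, hT, ?_, ?_⟩
    · exact srt_mono S hz hs hc a (min a b) k _ (min_le_left _ _) (by omega) _ hY
    · exact srt_mono S hz hs hc b (min a b) m _ (min_le_right _ _) (by omega) _ hZ
  exact ⟨_, _, key⟩

end

end Pool.Agent.Helper812_LT
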